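import Pool.Agent.Helper5.Pak.Cheb

/-! Piece PO of MP_005844_an, polynomial lemmas. -/

namespace Pool.Agent.Helper63.Pak

open Polynomial

/-- Riemann–Hurwitz for a polynomial (finite part), restricted to a finite set. -/
theorem po_rh {P : ℂ[X]} (hd : 1 ≤ P.natDegree) (Z : Finset ℂ) :
    ∑ z ∈ Z, (chm P z - 1) ≤ P.natDegree - 1 := by
  have hP' : derivative P ≠ 0 := by
    intro h0
    have := derivative_eq_zero.1 h0
    omega
  classical
  calc ∑ z ∈ Z, (chm P z - 1) = ∑ z ∈ Z, (derivative P).roots.count z := by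
        refine Finset.sum_congr rfl fun z _ => ?_
        rw [count_roots, ch_rootMultiplicity_derivative]
    _ ≤ (derivative P).roots.card := by
        calc ∑ z ∈ Z, (derivative P).roots.count z
            ≤ ∑ z ∈ Z ∪ (derivative P).roots.toFinset, (derivative P).roots.count z :=
              Finset.sum_le_sum_of_subset Finset.subset_union_left
          _ = (derivative P).roots.card :=
              Multiset.sum_count_eq_card fun a ha =>
                Finset.mem_union_right _ (Multiset.mem_toFinset.2 ha)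
    _ ≤ (derivative P).natDegree := card_roots' _
    _ ≤ P.natDegree - 1 := natDegree_derivative_le P

theorem po_sum_pair {P : ℂ[X]} (hd : 1 ≤ P.natDegree) {a b : ℂ} (hab : a ≠ b) :
    ∑ z ∈ ((P - C a) * (P - C b)).roots.toFinset, chm P z = 2 * P.natDegree := by
  classical
  have hN0 : (P - C a) * (P - C b) ≠ 0 :=
    mul_ne_zero (chm_sub_ne_zero (by omega) _) (chm_sub_ne_zero (by omega) _)
  have hmem : ∀ z, z ∈ ((P - C a) * (P - C b)).roots.toFinset ↔ (P.eval z = a ∨ P.eval z = b) := by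
    intro z
    rw [Multiset.mem_toFinset, mem_roots hN0, IsRoot, eval_mul, mul_eq_zero]
    simp [sub_eq_zero]
  have h1 : ∑ z ∈ ((P - C a) * (P - C b)).roots.toFinset, chm P z =
      ∑ z ∈ ((P - C a) * (P - C b)).roots.toFinset, ((P - C a) * (P - C b)).roots.count z := by
    refine Finset.sum_congr rfl fun z hz => ?_
    rw [count_roots, ch_rootMultiplicity_pair hd hab, if_pos ((hmem z).1 hz)]
  rw [h1, Multiset.toFinset_sum_count_eq, splits_iff_card_roots.1 (IsAlgClosed.splits _),
    natDegree_mul (chm_sub_ne_zero (by omega) _) (chm_sub_ne_zero (by omega) _), natDegree_sub_C,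
    natDegree_sub_C]
  ring

/-- Lemma A: two points with at most two odd preimages. -/
theorem po_pair_step {P : ℂ[X]} (hd : 2 ≤ P.natDegree) {a b : ℂ} (hab : a ≠ b) (S' : Set ℂ)
    (hS' : ∀ z, z ∈ S' ↔ (P.eval z = a ∨ P.eval z = b) ∧ Odd (chm P z))
    (h3 : ∀ z₁ ∈ S', ∀ z₂ ∈ S', ∀ z₃ ∈ S', z₁ = z₂ ∨ z₁ = z₃ ∨ z₂ = z₃) :
    (∃ c e, c ≠ e ∧ S' = {c, e}) ∧ (∀ z ∈ S', chm P z = 1) ∧
      (∀ z, (P.eval z = a ∨ P.eval z = b) → z ∉ S' → chm P z = 2) ∧
      (∀ z, ¬ (P.eval z = a ∨ P.eval z = b) → chm P z = 1) := by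
  classical
  have hN0 : (P - C a) * (P - C b) ≠ 0 :=
    mul_ne_zero (chm_sub_ne_zero (by omega) _) (chm_sub_ne_zero (by omega) _)
  set Z := ((P - C a) * (P - C b)).roots.toFinset with hZ
  have hmem : ∀ z, z ∈ Z ↔ (P.eval z = a ∨ P.eval z = b) := by
    intro z
    rw [hZ, Multiset.mem_toFinset, mem_roots hN0, IsRoot, eval_mul, mul_eq_zero]
    simp [sub_eq_zero]
  have hsum : ∑ z ∈ Z, chm P z = 2 * P.natDegree := po_sum_pair (by omega) hab
  set O := Z.filter fun z => Odd (chm P z) with hO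
  have hOmem : ∀ z, z ∈ O ↔ z ∈ S' := by
    intro z
    rw [hO, Finset.mem_filter, hmem, hS']
  have hpos : ∀ z, 1 ≤ chm P z := fun z => chm_pos (by omega) z
  have hsub : ∀ W : Finset ℂ, ∑ z ∈ W, (chm P z - 1) + W.card = ∑ z ∈ W, chm P z := by
    intro W
    rw [Finset.card_eq_sum_ones, ← Finset.sum_add_distrib]
    exact Finset.sum_congr rfl fun z _ => Nat.sub_add_cancel (hpos z)
  have hcardO : O.card ≤ 2 := by
    by_contra hc
    obtain ⟨z₁, z₂, z₃, h1, h2, h3', h12, h13, h23⟩ := Finset.two_lt_card_iff.1 (not_le.1 hc)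
    rcases h3 z₁ ((hOmem _).1 h1) z₂ ((hOmem _).1 h2) z₃ ((hOmem _).1 h3') with h | h | h
    · exact h12 h
    · exact h13 h
    · exact h23 h
  have hZcard : P.natDegree + 1 ≤ Z.card := by
    have h1 := po_rh (P := P) (by omega) Z
    have h2 := hsub Z
    omega
  -- pointwise inequality
  have hpt : ∀ z ∈ Z, 2 ≤ chm P z + if Odd (chm P z) then 1 else 0 := by
    intro z _
    have := hpos z
    split_ifs with ho
    · omega
    · rcases Nat.even_or_odd (chm P z) with h | h
      · obtain ⟨r, hr⟩ := h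
        omega
      · exact absurd h ho
  have hOsum : ∑ z ∈ Z, (if Odd (chm P z) then 1 else 0) = O.card := by
    rw [hO, Finset.card_filter]
  have hle : 2 * Z.card ≤ 2 * P.natDegree + O.card := by
    rw [← hsum, ← hOsum, ← Finset.sum_add_distrib, mul_comm, ← smul_eq_mul, ← Finset.sum_const]
    exact Finset.sum_le_sum hpt
  have hZc : Z.card = P.natDegree + 1 := by omega
  have hOc : O.card = 2 := by omega
  have heq : ∀ z ∈ Z, chm P z + (if Odd (chm P z) then 1 else 0) = 2 := by
    have h1 : ∑ z ∈ Z, 2 = ∑ z ∈ Z, (chm P z + if Odd (chm P z) then 1 else 0) := by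
      rw [Finset.sum_add_distrib, hsum, hOsum, Finset.sum_const, smul_eq_mul, hZc, hOc]
      ring
    intro z hz
    exact ((Finset.sum_eq_sum_iff_of_le hpt).1 h1 z hz).symm
  refine ⟨?_, ?_, ?_, ?_⟩
  · obtain ⟨c, e, hce, hOe⟩ := Finset.card_eq_two.1 hOc
    refine ⟨c, e, hce, ?_⟩
    ext z
    rw [← hOmem, hOe]
    simp
  · intro z hz
    have h1 := (hS' z).1 hz
    have h2 := heq z ((hmem z).2 h1.1)
    rw [if_pos h1.2] at h2
    omega
  · intro z hz hzS
    have h2 := heq z ((hmem z).2 hz)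
    rw [if_neg (fun ho => hzS ((hS' z).2 ⟨hz, ho⟩))] at h2
    omega
  · intro w hw
    have hwZ : w ∉ Z := fun h => hw ((hmem w).1 h)
    have h1 := po_rh (P := P) (by omega) (insert w Z)
    rw [Finset.sum_insert hwZ] at h1
    have h2 := hsub Z
    have := hpos w
    omega

/-- relation between two consecutive pairs -/
def PoRel (P : ℂ[X]) (S S' : Set ℂ) : Prop :=
  (∀ z ∈ S', P.eval z ∈ S ∧ chm P z = 1) ∧ (∀ z, P.eval z ∈ S → z ∉ S' → chm P z = 2) ∧
    ∀ z, P.eval z ∉ S → chm P z = 1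

theorem po_fibre_two {P : ℂ[X]} (hd : 2 ≤ P.natDegree) {p v r : ℂ}
    (h : ∀ z, P.eval z = p → z = v ∨ z = r) (h1 : ∀ z, P.eval z = p → chm P z = 1) :
    P.eval v = p := by
  classical
  by_contra hv
  have hne := chm_sub_ne_zero (P := P) (by omega) p
  have h2 : (P - C p).roots.card = P.natDegree := by
    rw [splits_iff_card_roots.1 (IsAlgClosed.splits _), natDegree_sub_C]
  have h3 : (P - C p).roots.toFinset ⊆ {r} := by
    intro z hz
    rw [Multiset.mem_toFinset, mem_roots hne, IsRoot, eval_sub, eval_C, sub_eq_zero] at hz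
    rcases h z hz with rfl | rfl
    · exact absurd hz hv
    · simp
  have h4 : (P - C p).roots.card ≤ 1 := by
    rw [← Multiset.toFinset_sum_count_eq]
    calc ∑ z ∈ (P - C p).roots.toFinset, (P - C p).roots.count z
        ≤ ∑ z ∈ (P - C p).roots.toFinset, 1 := by
          refine Finset.sum_le_sum fun z hz => ?_
          rw [Multiset.mem_toFinset, mem_roots hne, IsRoot, eval_sub, eval_C, sub_eq_zero] at hz
          rw [count_roots, ← h1 z hz, chm, hz]
      _ = (P - C p).roots.toFinset.card := by simp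
      _ ≤ 1 := by
          simpa using Finset.card_le_card h3
  omega

theorem po_pairs_eq {P : ℂ[X]} (hd : 2 ≤ P.natDegree) {S₀ S₁ S₂ S₃ : Set ℂ}
    (h₀ : ∃ a b, a ≠ b ∧ S₀ = {a, b}) (h₁ : ∃ a b, a ≠ b ∧ S₁ = {a, b})
    (h₂ : ∃ a b, a ≠ b ∧ S₂ = {a, b}) (h01 : PoRel P S₀ S₁) (h12 : PoRel P S₁ S₂)
    (h23 : PoRel P S₂ S₃) : S₀ = S₁ := by
  have hpair : ∀ {S : Set ℂ} {v : ℂ}, (∃ a b, a ≠ b ∧ S = {a, b}) → v ∈ S → ∃ p, v ≠ p ∧
      S = {v, p} := by
    rintro S v ⟨a, b, hab, rfl⟩ hv
    rcases hv with rfl | hv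
    · exact ⟨b, hab, rfl⟩
    · rw [Set.mem_singleton_iff] at hv
      subst hv
      exact ⟨a, hab.symm, Set.pair_comm _ _⟩
  -- a critical point
  obtain ⟨c, hc⟩ : ∃ c, (derivative P).IsRoot c := by
    apply IsAlgClosed.exists_root
    intro h0
    have h1 : P.natDegree ≤ 1 := by
      have hP'c : (derivative P).coeff (P.natDegree - 1) ≠ 0 := by
        rw [coeff_derivative, Nat.sub_add_cancel (by omega)]
        have h2 : P.coeff P.natDegree ≠ 0 := by
          apply leadingCoeff_ne_zero.2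
          rintro rfl
          simp at hd
        refine mul_ne_zero h2 ?_
        have : ((P.natDegree - 1 : ℕ) : ℂ) + 1 = (P.natDegree : ℂ) := by
          rw [Nat.cast_sub (by omega)]
          simp
        rw [this]
        have : P.natDegree ≠ 0 := by omega
        exact_mod_cast this
      have h3 := le_natDegree_of_ne_zero hP'c
      have h4 : (derivative P).natDegree = 0 := natDegree_eq_of_degree_eq_some h0
      omega
    omega
  have hcc : chm P c ≠ 1 := by
    intro h1
    have hP' : derivative P ≠ 0 := by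
      intro h0
      have := derivative_eq_zero.1 h0
      omega
    have h2 := ch_rootMultiplicity_derivative (P := P) c
    rw [h1] at h2
    have h3 := (rootMultiplicity_pos hP').2 hc
    omega
  have hv : ∀ {S S' : Set ℂ} {z : ℂ}, PoRel P S S' → chm P z ≠ 1 → P.eval z ∈ S := by
    intro S S' z hr hz
    by_contra h
    exact hz (hr.2.2 z h)
  obtain ⟨p, hvp, rfl⟩ := hpair h₀ (hv h01 hcc)
  obtain ⟨p', hvp', rfl⟩ := hpair h₁ (hv h12 hcc)
  obtain ⟨r, hvr, rfl⟩ := hpair h₂ (hv h23 hcc)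
  set v := P.eval c
  suffices h : p = p' by rw [h]
  by_contra hpp
  have e1 : P.eval v = p := by
    have hz : ∀ z, P.eval z = p → z ∈ ({v, p'} : Set ℂ) := by
      intro z hz
      by_contra hz'
      have h1 : chm P z = 2 := h01.2.1 z (by rw [hz]; simp) hz'
      have h2 : P.eval z ∈ ({v, p'} : Set ℂ) := hv h12 (by rw [h1]; norm_num)
      rw [hz] at h2
      rcases h2 with h2 | h2
      · exact hvp h2.symm
      · exact hpp h2
    exact po_fibre_two (r := p') hd (fun z h => hz z h) fun z h => (h01.1 z (hz z h)).2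
  have e2 : P.eval v = p' := by
    have hz : ∀ z, P.eval z = p' → z ∈ ({v, r} : Set ℂ) := by
      intro z hz
      by_contra hz'
      have h1 : chm P z = 2 := h12.2.1 z (by rw [hz]; simp) hz'
      have h2 : P.eval z ∈ ({v, p} : Set ℂ) := hv h01 (by rw [h1]; norm_num)
      rw [hz] at h2
      rcases h2 with h2 | h2
      · exact hvp' h2.symm
      · exact hpp h2.symm
    exact po_fibre_two (r := r) hd (fun z h => hz z h) fun z h => (h12.1 z (hz z h)).2
  exact hpp (e1.symm.trans e2)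

theorem po_isCheb {P : ℂ[X]} (hd : 2 ≤ P.natDegree) {S₀ S₁ S₂ S₃ : Set ℂ}
    (h₀ : ∃ a b, a ≠ b ∧ S₀ = {a, b}) (h₁ : ∃ a b, a ≠ b ∧ S₁ = {a, b})
    (h₂ : ∃ a b, a ≠ b ∧ S₂ = {a, b}) (h01 : PoRel P S₀ S₁) (h12 : PoRel P S₁ S₂)
    (h23 : PoRel P S₂ S₃) : IsCheb (algebraMap (Polynomial ℂ) (RatFunc ℂ) P) := by
  have h := po_pairs_eq hd h₀ h₁ h₂ h01 h12 h23
  subst h
  obtain ⟨a, b, hab, rfl⟩ := h₀
  refine isCheb_of_pair P hd hab (fun z hz hz' => h01.2.1 z hz hz') fun z hz => ?_
  exact h01.1 z hz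


/-! ### centred polynomials -/

theorem po_center {P : ℂ[X]} (hd : 1 ≤ P.natDegree) (h : P.coeff (P.natDegree - 1) = 0) (r : ℂ) :
    (P.comp (X + C r)).coeff (P.natDegree - 1) = P.natDegree * P.coeff P.natDegree * r := by
  have h1 : (P.comp (X + C r)).coeff (P.natDegree - 1) =
      (hasseDeriv (P.natDegree - 1) P).eval r := by
    rw [← taylor_coeff]; rfl
  have h2 : hasseDeriv (P.natDegree - 1) P = C (P.natDegree * P.coeff P.natDegree) * X := by
    ext n
    rw [hasseDeriv_coeff, coeff_C_mul, coeff_X]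
    rcases n with _ | _ | n
    · rw [zero_add, h]; simp
    · have h3 : 0 + 1 + (P.natDegree - 1) = P.natDegree := by omega
      rw [h3, if_pos (by norm_num), mul_one, Nat.choose_symm_of_eq_add (b := 1) (by omega),
        Nat.choose_one_right]
    · rw [if_neg (by omega), mul_zero, coeff_eq_zero_of_natDegree_lt (by omega), mul_zero]
  rw [h1, h2]
  simp

theorem po_affine_conj {P : ℂ[X]} (hd : 2 ≤ P.natDegree) (h : P.coeff (P.natDegree - 1) = 0)
    {a b a' b' : ℂ} (ha' : a' ≠ 0)
    (hconj : P.comp (C a' * X + C b') = C a * P + C b) : b' = 0 := by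
  have h1 : C a' * X + C b' = (C a' * X : ℂ[X]).comp (X + C (b' / a')) := by
    simp only [mul_comp, C_comp, Polynomial.X_comp, mul_add]
    rw [← C_mul, mul_div_cancel₀ _ ha']
  set P₁ := P.comp (C a' * X) with hP₁
  have hc : ∀ n, P₁.coeff n = P.coeff n * a' ^ n := fun n => comp_C_mul_X_coeff
  have hdeg : P₁.natDegree = P.natDegree := by
    rw [hP₁, natDegree_comp, natDegree_C_mul_X _ ha', mul_one]
  have h2 : P.comp (C a' * X + C b') = P₁.comp (X + C (b' / a')) := by
    rw [h1, hP₁, Polynomial.comp_assoc]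
  have h3 := po_center (P := P₁) (by omega) (by rw [hdeg, hc, h, zero_mul]) (b' / a')
  rw [← h2, hconj, hdeg, coeff_add, coeff_C_mul, h, mul_zero, coeff_C, if_neg (by omega), hc] at h3
  have h4 : P.coeff P.natDegree ≠ 0 := by
    apply leadingCoeff_ne_zero.2
    rintro rfl
    simp at hd
  have h5 : ((P.natDegree : ℕ) : ℂ) ≠ 0 := by
    have : P.natDegree ≠ 0 := by omega
    exact_mod_cast this
  have h6 : ((P.natDegree : ℕ) : ℂ) * (P.coeff P.natDegree * a' ^ P.natDegree) ≠ 0 :=
    mul_ne_zero h5 (mul_ne_zero h4 (pow_ne_zero _ ha'))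
  have h7 : b' / a' = 0 := by
    rcases mul_eq_zero.1 (show ((P.natDegree : ℕ) : ℂ) * (P.coeff P.natDegree * a' ^ P.natDegree) *
      (b' / a') = 0 by rw [← h3, add_zero]) with h | h
    · exact absurd h h6
    · exact h
  rcases div_eq_zero_iff.1 h7 with h | h
  · exact h
  · exact absurd h ha'

theorem po_isPow {P : ℂ[X]} (hd : 2 ≤ P.natDegree) (z : ℕ → ℂ) (hz0 : z 0 = 1) (hz1 : z 1 ≠ 1)
    (hz : ∀ n, z n ≠ 0) (h : ∀ n, P.comp (C (z (n + 1)) * X) = C (z n) * P) :
    IsPow (algebraMap (Polynomial ℂ) (RatFunc ℂ) P) := by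
  set d := P.natDegree with hdef
  have hP0 : P ≠ 0 := by
    rintro rfl
    rw [natDegree_zero] at hdef
    omega
  have hlc : P.coeff d ≠ 0 := leadingCoeff_ne_zero.2 hP0
  have hcoef : ∀ n j, P.coeff j * z (n + 1) ^ j = z n * P.coeff j := by
    intro n j
    have h1 := congrArg (fun p => p.coeff j) (h n)
    simpa only [comp_C_mul_X_coeff, coeff_C_mul] using h1
  have hpow : ∀ n, z (n + 1) ^ d = z n := by
    intro n
    have h1 := hcoef n d
    apply mul_left_cancel₀ hlc
    rw [h1, mul_comm]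
  have hlow : ∀ j, j < d → P.coeff j = 0 := by
    intro j hj
    by_contra hne
    have h1 : ∀ n, z n ^ (d - j) = 1 := by
      intro n
      rcases n with _ | n
      · rw [hz0, one_pow]
      · have h2 : z (n + 1) ^ j = z (n + 1) ^ d := by
          rw [hpow]
          apply mul_left_cancel₀ hne
          rw [hcoef, mul_comm]
        have h3 : z (n + 1) ^ (d - j) * z (n + 1) ^ j = 1 * z (n + 1) ^ j := by
          rw [← pow_add, Nat.sub_add_cancel hj.le, one_mul, h2]
        exact mul_right_cancel₀ (pow_ne_zero _ (hz _)) h3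
    have hfin : (Set.range z).Finite := by
      refine Set.Finite.subset (nthRoots (d - j) (1 : ℂ)).toFinset.finite_toSet ?_
      rintro _ ⟨n, rfl⟩
      rw [Finset.mem_coe, Multiset.mem_toFinset, mem_nthRoots (by omega)]
      exact h1 n
    have hiter : ∀ k n, z (n + k) ^ d ^ k = z n := by
      intro k
      induction k with
      | zero => intro n; simp
      | succ k ih =>
        intro n
        rw [pow_succ', pow_mul, ← add_assoc, hpow, ih]
    obtain ⟨i, i', hii, heq⟩ := Set.Finite.exists_lt_map_eq_of_forall_mem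
      (f := z) (t := Set.range z) (fun n => ⟨n, rfl⟩) hfin
    have h3 : z (i' - i) = 1 := by
      have h4 := hiter i 0
      have h5 := hiter i (i' - i)
      rw [Nat.sub_add_cancel hii.le, ← heq] at h5
      rw [zero_add] at h4
      rw [← h5, h4, hz0]
    apply hz1
    have h6 := hiter (i' - i - 1) 1
    have h7 : 1 + (i' - i - 1) = i' - i := by omega
    rw [h7, h3, one_pow] at h6
    exact h6.symm
  have hP : P = C (P.coeff d) * X ^ d := by
    ext j
    rw [coeff_C_mul, coeff_X_pow]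
    rcases lt_trichotomy j d with hj | rfl | hj
    · rw [hlow j hj, if_neg (by omega), mul_zero]
    · simp
    · rw [coeff_eq_zero_of_natDegree_lt hj, if_neg (by omega), mul_zero]
  obtain ⟨l, hl⟩ := IsAlgClosed.exists_pow_nat_eq (P.coeff d) (n := d - 1) (by omega)
  have hl0 : l ≠ 0 := by
    rintro rfl
    rw [zero_pow (by omega)] at hl
    exact hlc hl.symm
  left
  refine ⟨algebraMap ℂ[X] (RatFunc ℂ) (C l * X), ?_, ?_⟩
  · rw [ch_rdeg_algebraMap, natDegree_C_mul_X _ hl0]
  · have h1 : (RatFunc.X ^ rdeg (algebraMap ℂ[X] (RatFunc ℂ) P) : RatFunc ℂ) =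
        algebraMap ℂ[X] (RatFunc ℂ) (X ^ d) := by
      rw [ch_rdeg_algebraMap, map_pow, RatFunc.algebraMap_X]
    rw [h1, ch_comp_algebraMap, ch_comp_algebraMap]
    congr 1
    rw [mul_comp, C_comp, Polynomial.X_comp, pow_comp, Polynomial.X_comp, mul_pow, ← C_pow]
    conv_lhs => rw [hP]
    rw [← mul_assoc, ← C_mul]
    congr 2
    rw [← hl, ← pow_succ', Nat.sub_add_cancel (by omega)]

end Pool.Agent.Helper63.Pak
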