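import Pool.Agent.Helper91.Pak.GSF
import Pool.Agent.Helper98.Pak.Small
import Pool.Agent.Helper33.Pak.RAOmega
import Pool.Agent.Helper63.Pak.RARat
import Pool.Agent.Helper5.Pak.PolyA

/-! Piece PO of MP_005844_an: the polynomial case. -/

namespace Pool.Agent.Helper63.Pak

open IntermediateField

variable {Ω : Type} [Field Ω] [Algebra ℂ Ω] [CurveUniverse Ω]
variable {A : RatFunc ℂ} {x x' : ℤ → Ω} {R : IntermediateField ℂ Ω} {P : Polynomial ℂ}

theorem po_pmap_coe (P : Polynomial ℂ) (z : ℂ) :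
    pmap (algebraMap (Polynomial ℂ) (RatFunc ℂ) P) (z : OnePoint ℂ) =
      ((P.eval z : ℂ) : OnePoint ℂ) := by
  have h : pmap (algebraMap (Polynomial ℂ) (RatFunc ℂ) P) (z : OnePoint ℂ) =
    open Classical in if (algebraMap (Polynomial ℂ) (RatFunc ℂ) P).denom.eval z = 0 then
      OnePoint.infty else (((algebraMap (Polynomial ℂ) (RatFunc ℂ) P).num.eval z /
        (algebraMap (Polynomial ℂ) (RatFunc ℂ) P).denom.eval z : ℂ) : OnePoint ℂ) := rfl
  rw [h, RatFunc.num_algebraMap, RatFunc.denom_algebraMap, Polynomial.eval_one,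
    if_neg one_ne_zero, div_one]

theorem po_pmap_infty (hd : 1 ≤ P.natDegree) :
    pmap (algebraMap (Polynomial ℂ) (RatFunc ℂ) P) OnePoint.infty = OnePoint.infty := by
  have h : pmap (algebraMap (Polynomial ℂ) (RatFunc ℂ) P) OnePoint.infty =
    open Classical in if (algebraMap (Polynomial ℂ) (RatFunc ℂ) P).denom.coeff
        (rdeg (algebraMap (Polynomial ℂ) (RatFunc ℂ) P)) = 0 then OnePoint.infty
      else (((algebraMap (Polynomial ℂ) (RatFunc ℂ) P).num.coeff
        (rdeg (algebraMap (Polynomial ℂ) (RatFunc ℂ) P)) /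
          (algebraMap (Polynomial ℂ) (RatFunc ℂ) P).denom.coeff
            (rdeg (algebraMap (Polynomial ℂ) (RatFunc ℂ) P)) : ℂ) : OnePoint ℂ) := rfl
  have h0 : (1 : Polynomial ℂ).coeff P.natDegree = 0 := by
    rw [Polynomial.coeff_one, if_neg (by omega)]
  rw [h, RatFunc.denom_algebraMap, ch_rdeg_algebraMap, h0, if_pos rfl]

theorem po_locDeg_coe (P : Polynomial ℂ) (z : ℂ) :
    locDeg (algebraMap (Polynomial ℂ) (RatFunc ℂ) P) (z : OnePoint ℂ) = chm P z := by
  have h : locDeg (algebraMap (Polynomial ℂ) (RatFunc ℂ) P) (z : OnePoint ℂ) =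
    (fibPoly (algebraMap (Polynomial ℂ) (RatFunc ℂ) P)
      (pmap (algebraMap (Polynomial ℂ) (RatFunc ℂ) P) (z : OnePoint ℂ))).rootMultiplicity z := rfl
  have h2 : ∀ w : ℂ, fibPoly (algebraMap (Polynomial ℂ) (RatFunc ℂ) P) (w : OnePoint ℂ) =
    (algebraMap (Polynomial ℂ) (RatFunc ℂ) P).num - Polynomial.C w *
      (algebraMap (Polynomial ℂ) (RatFunc ℂ) P).denom := fun _ => rfl
  rw [h, po_pmap_coe, h2, RatFunc.num_algebraMap, RatFunc.denom_algebraMap, mul_one, chm]

theorem po_pmap_eq_infty_iff (hd : 1 ≤ P.natDegree) (q : OnePoint ℂ) :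
    pmap (algebraMap (Polynomial ℂ) (RatFunc ℂ) P) q = OnePoint.infty ↔ q = OnePoint.infty := by
  constructor
  · intro h
    induction q using OnePoint.rec with
    | infty => rfl
    | coe z => rw [po_pmap_coe] at h; exact absurd h (OnePoint.coe_ne_infty _)
  · rintro rfl
    exact po_pmap_infty hd

theorem po_iter_eq_infty_iff (hd : 1 ≤ P.natDegree) (k : ℕ) (q : OnePoint ℂ) :
    (pmap (algebraMap (Polynomial ℂ) (RatFunc ℂ) P))^[k] q = OnePoint.infty ↔
      q = OnePoint.infty := by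
  induction k generalizing q with
  | zero => simp
  | succ k ih => rw [Function.iterate_succ_apply, ih, po_pmap_eq_infty_iff hd]

section

variable {N : ℤ} {K : IntermediateField ℂ Ω}

theorem po_m_pos (hPT : PTFacts Ω) (hx : Tower A x) (h : GS x R N K) :
    0 < (Cx x N).relfinrank K :=
  hPT.relfinrank_pos (hx.ff N) (h.ff hx) h.le

/-- finite part: `∑ (1 - 1/orb) ≤ 1` -/
theorem po_fin_le (hPT : PTFacts Ω) (hd : 2 ≤ P.natDegree)
    (hA : A = algebraMap (Polynomial ℂ) (RatFunc ℂ) P) (hx : Tower A x)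
    (hR : IsSmallField x R) (h : GS x R N K) (S : Finset ℂ) :
    ∑ z ∈ S, (1 - 1 / (orb x N K (z : OnePoint ℂ) : ℚ)) ≤ 1 := by
  classical
  have hdeg : rdeg A = P.natDegree := by rw [hA, ch_rdeg_algebraMap]
  have hA2 : 2 ≤ rdeg A := by rw [hdeg]; exact hd
  set m := (Cx x N).relfinrank K with hm
  have hpos : ∀ z : ℂ, 0 < orb x N K (z : OnePoint ℂ) := fun z => h.orb_pos hPT hx _
  have key : ∀ k : ℕ, ((rdeg A : ℚ) ^ k) * (∑ z ∈ S, (1 - 1 / (orb x N K (z : OnePoint ℂ) : ℚ)) - 1)
      ≤ 2 * m * S.card := by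
    intro k
    have h1 := iter_rh hPT (by omega : 1 ≤ rdeg A) k
      (insert OnePoint.infty (S.image fun z : ℂ => (z : OnePoint ℂ)))
    have hni : OnePoint.infty ∉ S.image fun z : ℂ => (z : OnePoint ℂ) := by
      intro hmem
      obtain ⟨z, _, hz⟩ := Finset.mem_image.1 hmem
      exact OnePoint.coe_ne_infty z hz
    have hinf : ((pmap A)^[k] ⁻¹' {OnePoint.infty}).ncard = 1 := by
      have : (pmap A)^[k] ⁻¹' {OnePoint.infty} = {OnePoint.infty} := by
        ext q
        rw [Set.mem_preimage, Set.mem_singleton_iff, Set.mem_singleton_iff, hA,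
          po_iter_eq_infty_iff (by omega)]
      rw [this, Set.ncard_singleton]
    rw [Finset.sum_insert hni, hinf, Finset.sum_image fun a _ b _ hab =>
      OnePoint.coe_injective hab] at h1
    have h2 : ∑ z ∈ S, ((rdeg A : ℚ) ^ k -
        ((pmap A)^[k] ⁻¹' {(z : OnePoint ℂ)}).ncard) ≤ (rdeg A : ℚ) ^ k - 1 := by
      have h3 : ∑ z ∈ S, ((rdeg A : ℤ) ^ k -
        ((pmap A)^[k] ⁻¹' {(z : OnePoint ℂ)}).ncard) ≤ (rdeg A : ℤ) ^ k - 1 := by
        push_cast at h1
        linarith
      exact_mod_cast h3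
    have h4 : ∀ z ∈ S, (rdeg A : ℚ) ^ k * (1 - 1 / (orb x N K (z : OnePoint ℂ) : ℚ)) - 2 * m ≤
        (rdeg A : ℚ) ^ k - ((pmap A)^[k] ⁻¹' {(z : OnePoint ℂ)}).ncard := by
      intro z _
      have h5 := h.card_fibre_le hPT hA2 hx hR k (z : OnePoint ℂ)
      have h6 : (((pmap A)^[k] ⁻¹' {(z : OnePoint ℂ)}).ncard : ℚ) * orb x N K (z : OnePoint ℂ) ≤
          2 * m * orb x N K (z : OnePoint ℂ) + (rdeg A : ℚ) ^ k := by
        exact_mod_cast h5
      have h7 : (0 : ℚ) < orb x N K (z : OnePoint ℂ) := by exact_mod_cast hpos z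
      have h8 : (((pmap A)^[k] ⁻¹' {(z : OnePoint ℂ)}).ncard : ℚ) ≤
          2 * m + (rdeg A : ℚ) ^ k * (1 / orb x N K (z : OnePoint ℂ)) := by
        rw [← sub_nonneg]
        have h9 : (2 * m + (rdeg A : ℚ) ^ k * (1 / orb x N K (z : OnePoint ℂ)) -
            (((pmap A)^[k] ⁻¹' {(z : OnePoint ℂ)}).ncard : ℚ)) =
            (2 * m * orb x N K (z : OnePoint ℂ) + (rdeg A : ℚ) ^ k -
              (((pmap A)^[k] ⁻¹' {(z : OnePoint ℂ)}).ncard : ℚ) * orb x N K (z : OnePoint ℂ)) /
              orb x N K (z : OnePoint ℂ) := by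
          field_simp
        rw [h9]
        exact div_nonneg (by linarith) h7.le
      linarith
    have h5 := (Finset.sum_le_sum h4).trans h2
    rw [Finset.sum_sub_distrib, ← Finset.mul_sum, Finset.sum_const, nsmul_eq_mul] at h5
    have h6 : (0 : ℚ) ≤ 1 := zero_le_one
    linarith
  by_contra hlt
  rw [not_le, ← sub_pos] at hlt
  set ε := ∑ z ∈ S, (1 - 1 / (orb x N K (z : OnePoint ℂ) : ℚ)) - 1 with hε
  obtain ⟨k, hk⟩ := pow_unbounded_of_one_lt (2 * m * S.card / ε)
    (show (1 : ℚ) < rdeg A by exact_mod_cast (by omega : 1 < rdeg A))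
  rw [div_lt_iff₀ hlt] at hk
  exact absurd (key k) (not_le.2 hk)

theorem po_half (hPT : PTFacts Ω) (hx : Tower A x) (h : GS x R N K) {q : OnePoint ℂ}
    (hq : orb x N K q ≠ 1) : (1 : ℚ) / 2 ≤ 1 - 1 / (orb x N K q : ℚ) := by
  have h1 := h.orb_pos hPT hx q
  have h2 : 2 ≤ orb x N K q := by omega
  have h3 : (2 : ℚ) ≤ orb x N K q := by exact_mod_cast h2
  have h4 : (1 : ℚ) / (orb x N K q : ℚ) ≤ 1 / 2 := one_div_le_one_div_of_le two_pos h3
  linarith

/-- at most two finite points in the support -/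
theorem po_three (hPT : PTFacts Ω) (hd : 2 ≤ P.natDegree)
    (hA : A = algebraMap (Polynomial ℂ) (RatFunc ℂ) P) (hx : Tower A x)
    (hR : IsSmallField x R) (h : GS x R N K) {z₁ z₂ z₃ : ℂ}
    (h1 : orb x N K (z₁ : OnePoint ℂ) ≠ 1) (h2 : orb x N K (z₂ : OnePoint ℂ) ≠ 1)
    (h3 : orb x N K (z₃ : OnePoint ℂ) ≠ 1) : z₁ = z₂ ∨ z₁ = z₃ ∨ z₂ = z₃ := by
  by_contra hcon
  push Not at hcon
  obtain ⟨h12, h13, h23⟩ := hcon
  have h4 := po_fin_le hPT hd hA hx hR h {z₁, z₂, z₃}
  rw [Finset.sum_insert (by simp [h12, h13]), Finset.sum_insert (by simp [h23]),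
    Finset.sum_singleton] at h4
  have e1 := po_half hPT hx h h1
  have e2 := po_half hPT hx h h2
  have e3 := po_half hPT hx h h3
  linarith

/-- two finite points in the support: both have order two -/
theorem po_two (hPT : PTFacts Ω) (hd : 2 ≤ P.natDegree)
    (hA : A = algebraMap (Polynomial ℂ) (RatFunc ℂ) P) (hx : Tower A x)
    (hR : IsSmallField x R) (h : GS x R N K) {z₁ z₂ : ℂ} (h12 : z₁ ≠ z₂)
    (h1 : orb x N K (z₁ : OnePoint ℂ) ≠ 1) (h2 : orb x N K (z₂ : OnePoint ℂ) ≠ 1) :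
    orb x N K (z₁ : OnePoint ℂ) = 2 := by
  have h4 := po_fin_le hPT hd hA hx hR h {z₁, z₂}
  rw [Finset.sum_insert (by simp [h12]), Finset.sum_singleton] at h4
  have e1 := po_half hPT hx h h1
  have e2 := po_half hPT hx h h2
  have e3 : (1 : ℚ) - 1 / (orb x N K (z₁ : OnePoint ℂ) : ℚ) = 1 / 2 := by linarith
  have e4 : (0 : ℚ) < orb x N K (z₁ : OnePoint ℂ) := by exact_mod_cast h.orb_pos hPT hx _
  have e5 : (orb x N K (z₁ : OnePoint ℂ) : ℚ) = 2 := by
    field_simp at e3
    linarith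
  exact_mod_cast e5

/-- the finite support -/
def poFin (x : ℤ → Ω) (N : ℤ) (K : IntermediateField ℂ Ω) : Set ℂ :=
  {z : ℂ | orb x N K (z : OnePoint ℂ) ≠ 1}

theorem po_pair (hPT : PTFacts Ω) (hd : 2 ≤ P.natDegree)
    (hA : A = algebraMap (Polynomial ℂ) (RatFunc ℂ) P) (hx : Tower A x)
    (hR : IsSmallField x R) (h : GS x R N K) {z₁ z₂ : ℂ} (h12 : z₁ ≠ z₂)
    (h1 : z₁ ∈ poFin x N K) (h2 : z₂ ∈ poFin x N K) : poFin x N K = {z₁, z₂} := by
  ext z
  constructor
  · intro hz
    rcases po_three hPT hd hA hx hR h h1 h2 hz with h3 | h3 | h3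
    · exact absurd h3 h12
    · exact Or.inl h3.symm
    · exact Or.inr h3.symm
  · rintro (rfl | hz)
    · exact h1
    · rw [Set.mem_singleton_iff] at hz
      rw [hz]; exact h2

theorem po_step (hPT : PTFacts Ω) (hd : 2 ≤ P.natDegree)
    (hA : A = algebraMap (Polynomial ℂ) (RatFunc ℂ) P) (hx : Tower A x)
    (hR : IsSmallField x R) (h : GS x R N K) (h2 : ∃ a b, a ≠ b ∧ poFin x N K = {a, b}) :
    GS x R (N + 1) (K ⊔ Cx x (N + 1)) ∧
      (∃ a b, a ≠ b ∧ poFin x (N + 1) (K ⊔ Cx x (N + 1)) = {a, b}) ∧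
      PoRel P (poFin x N K) (poFin x (N + 1) (K ⊔ Cx x (N + 1))) := by
  have hdeg : rdeg A = P.natDegree := by rw [hA, ch_rdeg_algebraMap]
  have hA2 : 2 ≤ rdeg A := by rw [hdeg]; exact hd
  have hxR : ∀ n, x n ∈ R := hR.tower_mem hPT hA2 hx
  have hup : GS x R (N + 1) (K ⊔ Cx x (N + 1)) := by
    have := h.up hPT hA2 hx hxR 1
    simpa using this
  obtain ⟨a, b, hab, hS⟩ := h2
  have ha : a ∈ poFin x N K := by rw [hS]; simp
  have hb : b ∈ poFin x N K := by rw [hS]; simp
  have hoa : orb x N K (a : OnePoint ℂ) = 2 := po_two hPT hd hA hx hR h hab ha hb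
  have hob : orb x N K (b : OnePoint ℂ) = 2 := po_two hPT hd hA hx hR h hab.symm hb ha
  have horb : ∀ z : ℂ, chm P z * orb x (N + 1) (K ⊔ Cx x (N + 1)) (z : OnePoint ℂ) =
      Nat.lcm (orb x N K ((P.eval z : ℂ) : OnePoint ℂ)) (chm P z) := by
    intro z
    have h1 := h.orb_up hPT hA2 hx hxR 1 (z : OnePoint ℂ)
    have h3 : locIter A 1 (z : OnePoint ℂ) = chm P z := by
      rw [locIter, Finset.prod_range_one, Function.iterate_zero, id, hA, po_locDeg_coe]
    rw [h3, Function.iterate_one] at h1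
    rw [hA, po_pmap_coe] at h1
    simpa using h1
  have hchm : ∀ z, 0 < chm P z := fun z => chm_pos (by omega) z
  have hmem : ∀ z, z ∈ poFin x (N + 1) (K ⊔ Cx x (N + 1)) ↔
      (P.eval z = a ∨ P.eval z = b) ∧ Odd (chm P z) := by
    intro z
    have h1 := horb z
    by_cases hz : P.eval z = a ∨ P.eval z = b
    · have h3 : orb x N K ((P.eval z : ℂ) : OnePoint ℂ) = 2 := by
        rcases hz with hz | hz
        · rw [hz, hoa]
        · rw [hz, hob]
      rw [h3] at h1
      rcases Nat.even_or_odd (chm P z) with he | ho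
      · rw [Nat.lcm_eq_right (even_iff_two_dvd.1 he)] at h1
        have h4 : orb x (N + 1) (K ⊔ Cx x (N + 1)) (z : OnePoint ℂ) = 1 := by
          apply Nat.eq_of_mul_eq_mul_left (hchm z)
          rw [h1, mul_one]
        constructor
        · intro h5; exact absurd h4 h5
        · rintro ⟨_, h5⟩
          exact absurd he (Nat.not_even_iff_odd.2 h5)
      · have hcop : Nat.Coprime 2 (chm P z) := Nat.coprime_two_left.2 ho
        rw [hcop.lcm_eq_mul] at h1
        have h4 : orb x (N + 1) (K ⊔ Cx x (N + 1)) (z : OnePoint ℂ) = 2 := by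
          apply Nat.eq_of_mul_eq_mul_left (hchm z)
          rw [h1, mul_comm]
        constructor
        · intro _; exact ⟨hz, ho⟩
        · intro _
          change orb x (N + 1) (K ⊔ Cx x (N + 1)) (z : OnePoint ℂ) ≠ 1
          rw [h4]; norm_num
    · have h3 : orb x N K ((P.eval z : ℂ) : OnePoint ℂ) = 1 := by
        by_contra h4
        have h5 : P.eval z ∈ poFin x N K := h4
        rw [hS] at h5
        exact hz h5
      rw [h3, Nat.lcm_one_left] at h1
      have h4 : orb x (N + 1) (K ⊔ Cx x (N + 1)) (z : OnePoint ℂ) = 1 := by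
        apply Nat.eq_of_mul_eq_mul_left (hchm z)
        rw [h1, mul_one]
      constructor
      · intro h5; exact absurd h4 h5
      · rintro ⟨h5, _⟩; exact absurd h5 hz
  obtain ⟨r1, r2, r3, r4⟩ := po_pair_step hd hab _ hmem fun z₁ h1 z₂ h2 z₃ h3 =>
    po_three hPT hd hA hx hR hup h1 h2 h3
  refine ⟨hup, r1, ?_, ?_, ?_⟩
  · intro z hz
    refine ⟨?_, r2 z hz⟩
    rw [hS]
    exact ((hmem z).1 hz).1
  · intro z hz hz'
    rw [hS] at hz
    exact r3 z hz hz'
  · intro z hz
    rw [hS] at hz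
    exact r4 z hz

theorem po_isCheb_of_two (hPT : PTFacts Ω) (hd : 2 ≤ P.natDegree)
    (hA : A = algebraMap (Polynomial ℂ) (RatFunc ℂ) P) (hx : Tower A x)
    (hR : IsSmallField x R) (h : GS x R N K) (h2 : ∃ a b, a ≠ b ∧ poFin x N K = {a, b}) :
    IsCheb A := by
  obtain ⟨g1, p1, r1⟩ := po_step hPT hd hA hx hR h h2
  obtain ⟨g2, p2, r2⟩ := po_step hPT hd hA hx hR g1 p1
  obtain ⟨g3, p3, r3⟩ := po_step hPT hd hA hx hR g2 p2
  rw [hA]
  exact po_isCheb hd h2 p1 p2 r1 r2 r3

/-- one place at infinity -/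
theorem GS.infty_total (hPT : PTFacts Ω) (P : Polynomial ℂ) (hd : 2 ≤ P.natDegree)
    (hA : A = algebraMap (Polynomial ℂ) (RatFunc ℂ) P) (hx : Tower A x)
    (hR : IsSmallField x R) (hS : ¬ SpecialIn Ω A) {N : ℤ} {K : IntermediateField ℂ Ω}
    (h : GS x R N K) : orb x N K OnePoint.infty = (Cx x N).relfinrank K := by
  classical
  have hdeg : rdeg A = P.natDegree := by rw [hA, ch_rdeg_algebraMap]
  have hA2 : 2 ≤ rdeg A := by rw [hdeg]; exact hd
  have hmpos := po_m_pos hPT hx h
  set m := (Cx x N).relfinrank K with hm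
  have hle2 : chi K ≤ 2 := hPT.chi_le (h.ff hx)
  have hchi := h.chi_eq hPT hx
  rw [← hm] at hchi
  have hnpos := h.orb_pos hPT hx OnePoint.infty
  have hndvd : orb x N K OnePoint.infty ∣ m := h.orb_dvd hPT hx _
  have hfrac : ∀ q, (1 : ℚ) ≤ m / orb x N K q := by
    intro q
    have h1 := h.orb_pos hPT hx q
    have h2 := Nat.le_of_dvd hmpos (h.orb_dvd hPT hx q)
    rw [le_div_iff₀ (by exact_mod_cast h1), one_mul]
    exact_mod_cast h2
  have hle2' : (chi K : ℚ) ≤ 2 := by exact_mod_cast hle2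
  by_cases htwo : ∃ z₁ ∈ poFin x N K, ∃ z₂ ∈ poFin x N K, z₁ ≠ z₂
  · obtain ⟨z₁, h1, z₂, h2, h12⟩ := htwo
    exact absurd (Or.inr (Or.inr (po_isCheb_of_two hPT hd hA hx hR h
      ⟨z₁, z₂, h12, po_pair hPT hd hA hx hR h h12 h1 h2⟩))) hS
  · push Not at htwo
    rcases Set.eq_empty_or_nonempty (poFin x N K) with he | ⟨b, hb⟩
    · -- no finite point
      have hsum : ∑ᶠ q, (1 - 1 / (orb x N K q : ℚ)) = 1 - 1 / (orb x N K OnePoint.infty : ℚ) := by
        rw [finsum_eq_sum_of_support_subset (s := {OnePoint.infty})]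
        · simp
        · intro q hq
          rw [Function.mem_support] at hq
          induction q using OnePoint.rec with
          | infty => simp
          | coe z =>
            exfalso
            apply hq
            have h1 : ¬ orb x N K (z : OnePoint ℂ) ≠ 1 := by
              intro h1
              have : z ∈ poFin x N K := h1
              rw [he] at this
              exact this
            rw [not_not] at h1
            rw [h1]
            norm_num
      rw [hsum] at hchi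
      have h1 : (chi K : ℚ) = m + m / orb x N K OnePoint.infty := by
        rw [hchi]; ring
      have h2 := hfrac OnePoint.infty
      have h3 : (m : ℚ) ≤ 1 := by linarith
      have h4 : m ≤ 1 := by exact_mod_cast h3
      have h5 : m = 1 := by omega
      rw [h5] at hndvd ⊢
      exact Nat.dvd_one.1 hndvd
    · have hbs : poFin x N K = {b} := by
        ext z
        constructor
        · intro hz
          exact htwo z hz b hb
        · intro hz
          rw [Set.mem_singleton_iff] at hz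
          rw [hz]; exact hb
      have hbi : (b : OnePoint ℂ) ≠ OnePoint.infty := OnePoint.coe_ne_infty b
      have hsum : ∑ᶠ q, (1 - 1 / (orb x N K q : ℚ)) =
          (1 - 1 / (orb x N K (b : OnePoint ℂ) : ℚ)) +
            (1 - 1 / (orb x N K OnePoint.infty : ℚ)) := by
        rw [finsum_eq_sum_of_support_subset (s := {(b : OnePoint ℂ), OnePoint.infty})]
        · rw [Finset.sum_pair hbi]
        · intro q hq
          rw [Function.mem_support] at hq
          induction q using OnePoint.rec with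
          | infty => simp
          | coe z =>
            by_cases hz : z = b
            · subst hz; simp
            · exfalso
              apply hq
              have h1 : ¬ orb x N K (z : OnePoint ℂ) ≠ 1 := by
                intro h1
                have : z ∈ poFin x N K := h1
                rw [hbs] at this
                exact hz this
              rw [not_not] at h1
              rw [h1]
              norm_num
      rw [hsum] at hchi
      have h1 : (chi K : ℚ) = m / orb x N K (b : OnePoint ℂ) + m / orb x N K OnePoint.infty := by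
        rw [hchi]; ring
      have h2 := hfrac OnePoint.infty
      have h3 := hfrac (b : OnePoint ℂ)
      have h4 : (m : ℚ) / orb x N K OnePoint.infty = 1 := by linarith
      have h5 : (orb x N K OnePoint.infty : ℚ) ≠ 0 := by exact_mod_cast hnpos.ne'
      rw [div_eq_one_iff_eq h5] at h4
      exact_mod_cast h4.symm

end

/-! ### rigidity -/

omit [CurveUniverse Ω] in
theorem po_ev_eq_aeval (P : Polynomial ℂ) (y : Ω) :
    ev (algebraMap (Polynomial ℂ) (RatFunc ℂ) P) y = Polynomial.aeval y P := by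
  rw [ev, RatFunc.eval_algebraMap, Polynomial.aeval_def]
  rfl

/-- a rational function without finite poles is a polynomial -/
theorem po_eq_algebraMap {Q : RatFunc ℂ} (h : ∀ c : ℂ, pmap Q (c : OnePoint ℂ) ≠ OnePoint.infty) :
    Q = algebraMap (Polynomial ℂ) (RatFunc ℂ) Q.num := by
  have h1 : ∀ c : ℂ, Q.denom.eval c ≠ 0 := by
    intro c hc
    apply h c
    have h2 : pmap Q (c : OnePoint ℂ) = open Classical in if Q.denom.eval c = 0 then
      OnePoint.infty else ((Q.num.eval c / Q.denom.eval c : ℂ) : OnePoint ℂ) := rfl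
    rw [h2, if_pos hc]
  have h2 : Q.denom.degree = 0 := by
    by_contra h3
    obtain ⟨c, hc⟩ := IsAlgClosed.exists_root Q.denom h3
    exact h1 c hc
  have h3 : Q.denom = 1 := by
    have h4 := Polynomial.eq_C_of_degree_eq_zero h2
    have h5 : Q.denom.Monic := RatFunc.monic_denom Q
    exact Polynomial.eq_one_of_monic_natDegree_zero h5
      (Polynomial.natDegree_eq_of_degree_eq_some h2)
  conv_lhs => rw [← RatFunc.num_div_denom Q, h3, map_one, div_one]

theorem po_one_place (hPT : PTFacts Ω) (hx : Tower A x) {N : ℤ} {K : IntermediateField ℂ Ω}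
    (h : GS x R N K) (hinf : orb x N K OnePoint.infty = (Cx x N).relfinrank K) {v w : Pt Ω}
    (hv : val v (x N) = OnePoint.infty) (hw : val w (x N) = OnePoint.infty) : SameOn K v w := by
  classical
  have hK := h.ff hx
  have hC := hx.ff N
  have hsum := hPT.sum_e v hC hK h.le
  have hfin := hPT.finite_over v hC hK h.le
  set S : Set (Pl K) := {P : Pl K | SameOn (Cx x N) P.pt v} with hS
  have hxN : x N ∈ Cx x N := mem_adjoin_simple_self ℂ (x N)
  have he : ∀ P ∈ S, e P.pt (Cx x N) K = (Cx x N).relfinrank K := by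
    intro P hP
    rw [h.e_eq_orb hPT hx, hPT.val_eq_of_sameOn hP hxN, hv, hinf]
  have hvS : Pl.mk K v ∈ S := (Pl.sameOn_pt_mk K v).mono h.le
  have hwS : Pl.mk K w ∈ S := by
    have h1 : SameOn (Cx x N) (Pl.mk K w).pt w := (Pl.sameOn_pt_mk K w).mono h.le
    exact h1.trans (hPT.sameOn_adjoin (hx.trans N) (by rw [hv, hw]))
  have hpos := hPT.relfinrank_pos hC hK h.le
  by_contra hne
  have hne' : Pl.mk K v ≠ Pl.mk K w := fun hh => hne (Pl.mk_eq_mk.1 hh)
  rw [finsum_mem_eq_finite_toFinset_sum _ hfin] at hsum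
  have h1 : ∑ P ∈ ({Pl.mk K v, Pl.mk K w} : Finset (Pl K)), e P.pt (Cx x N) K ≤
      ∑ P ∈ hfin.toFinset, e P.pt (Cx x N) K := by
    apply Finset.sum_le_sum_of_subset
    intro P hP
    rw [Finset.mem_insert, Finset.mem_singleton] at hP
    rw [Set.Finite.mem_toFinset]
    rcases hP with rfl | rfl
    · exact hvS
    · exact hwS
  rw [Finset.sum_pair hne', he _ hvS, he _ hwS, hsum] at h1
  omega

theorem po_mem (hPT : PTFacts Ω) (hd : 2 ≤ P.natDegree)
    (hA : A = algebraMap (Polynomial ℂ) (RatFunc ℂ) P) (hS : ¬ SpecialIn Ω A)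
    (hx : Tower A x) (hx' : Tower A x') (h0 : x 0 = x' 0) (hc : Close x x') (n : ℕ) :
    x' n ∈ Cx x n := by
  classical
  have hdeg : rdeg A = P.natDegree := by rw [hA, ch_rdeg_algebraMap]
  have hA2 : 2 ≤ rdeg A := by rw [hdeg]; exact hd
  obtain ⟨R, hR⟩ := exists_smallField hPT hA2 hx
  have hR' : IsSmallField x' R := hR.of_close hPT hA2 hx hx' hc
  set D := Cx x n ⊔ Cx x' n with hD
  have hDff : FF D := (hx.ff n).sup (hx'.ff n)
  have hDR : D ≤ R := by
    refine sup_le ?_ ?_
    · rw [adjoin_simple_le_iff]; exact hR.tower_mem hPT hA2 hx n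
    · rw [adjoin_simple_le_iff]; exact hR'.tower_mem hPT hA2 hx' n
  obtain ⟨N₀, hN₀⟩ := hR.exists_GS hPT hA2 hx hDff.1 hDR
  obtain ⟨k, hk⟩ : ∃ k : ℕ, N₀ ≤ (n : ℤ) + k := ⟨(N₀ - n).toNat, by omega⟩
  obtain ⟨K, hK, hDK⟩ := hN₀ ((n : ℤ) + k) hk
  have hinf := GS.infty_total hPT P hd hA hx hR hS hK
  -- one place of `D` over infinity
  have hone : ∀ v w : Pt Ω, val v (x n) = OnePoint.infty → val w (x n) = OnePoint.infty →
      SameOn D v w := by
    intro v w hv hw
    refine (po_one_place hPT hx hK hinf ?_ ?_).mono hDK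
    · have h1 := hx.val_eq hPT v n k
      rw [hv, hA] at h1
      exact (po_iter_eq_infty_iff (by omega) k _).1 h1.symm
    · have h1 := hx.val_eq hPT w n k
      rw [hw, hA] at h1
      exact (po_iter_eq_infty_iff (by omega) k _).1 h1.symm
  obtain ⟨v, hv⟩ := hPT.exists_val (hx.trans n) OnePoint.infty
  have hv0 : val v (x 0) = OnePoint.infty := by
    have h1 := hx.val_eq hPT v 0 n
    rw [zero_add, hv, hA] at h1
    rw [h1]
    exact (po_iter_eq_infty_iff (by omega) n _).2 rfl
  have hv' : val v (x' n) = OnePoint.infty := by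
    have h1 := hx'.val_eq hPT v 0 n
    rw [zero_add, ← h0, hv0, hA] at h1
    exact (po_iter_eq_infty_iff (by omega) n _).1 h1.symm
  have hle1 : Cx x 0 ≤ Cx x n := by
    have := hx.le 0 n
    rwa [zero_add] at this
  have hle2 : Cx x 0 ≤ Cx x' n := by
    have := hx'.le 0 n
    rw [zero_add] at this
    have h2 : Cx x 0 = Cx x' 0 := by rw [Cx, Cx, h0]
    rwa [h2]
  have he1 : e v (Cx x 0) (Cx x n) = locIter A n OnePoint.infty := by
    have := hx.e_eq hPT (by omega) v 0 n
    rwa [zero_add, hv] at this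
  have he2 : e v (Cx x 0) (Cx x' n) = locIter A n OnePoint.infty := by
    have := hx'.e_eq hPT (by omega) v 0 n
    rw [zero_add, hv'] at this
    have h2 : Cx x 0 = Cx x' 0 := by rw [Cx, Cx, h0]
    rwa [h2]
  have heD : e v (Cx x 0) D = locIter A n OnePoint.infty := by
    rw [hD, hPT.e_sup v (hx.ff 0) (hx.ff n) (hx'.ff n) hle1 hle2, he1, he2, Nat.lcm_self]
  have hmul := e_mul v hle1 (le_sup_left : Cx x n ≤ D)
  rw [heD, he1] at hmul
  have hpos : 0 < locIter A n OnePoint.infty := by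
    rw [← he1]
    exact hPT.e_pos v (hx.ff 0) (hx.ff n) hle1
  have heone : e v (Cx x n) D = 1 := by
    apply Nat.eq_of_mul_eq_mul_left hpos
    rw [← hmul, mul_one]
  have hsum := hPT.sum_e v (hx.ff n) hDff (le_sup_left : Cx x n ≤ D)
  have hset : {P : Pl D | SameOn (Cx x n) P.pt v} = {Pl.mk D v} := by
    ext Q
    rw [Set.mem_ofPred_eq, Set.mem_singleton_iff]
    constructor
    · intro hQ
      rw [← Pl.mk_pt Q, Pl.mk_eq_mk]
      exact hone _ _ (by rw [hPT.val_eq_of_sameOn hQ (mem_adjoin_simple_self ℂ (x n)), hv]) hv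
    · rintro rfl
      exact (Pl.sameOn_pt_mk D v).mono le_sup_left
  rw [hset, finsum_mem_singleton, hPT.e_congr (hx.ff n) hDff le_sup_left (Pl.sameOn_pt_mk D v),
    heone] at hsum
  have h1 : D ≤ Cx x n := relfinrank_eq_one_iff.1 hsum.symm
  exact h1 (le_sup_right (a := Cx x n) (mem_adjoin_simple_self ℂ (x' n)))

theorem po_affine (hPT : PTFacts Ω) (hd : 2 ≤ P.natDegree)
    (hA : A = algebraMap (Polynomial ℂ) (RatFunc ℂ) P) (hS : ¬ SpecialIn Ω A)
    (hx : Tower A x) (hx' : Tower A x') (h0 : x 0 = x' 0) (hc : Close x x') (n : ℕ) :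
    ∃ a b : ℂ, a ≠ 0 ∧ x' n = Polynomial.aeval (x n) (Polynomial.C a * Polynomial.X +
      Polynomial.C b) := by
  have hdeg : rdeg A = P.natDegree := by rw [hA, ch_rdeg_algebraMap]
  have hA2 : 2 ≤ rdeg A := by rw [hdeg]; exact hd
  have hmem := po_mem hPT hd hA hS hx hx' h0 hc n
  obtain ⟨Q, hQ⟩ := exists_ev_of_mem (hx.trans n) hmem
  have hpoly : Q = algebraMap (Polynomial ℂ) (RatFunc ℂ) Q.num := by
    apply po_eq_algebraMap
    intro c hcon
    obtain ⟨v, hv⟩ := hPT.exists_val (hx.trans n) (c : OnePoint ℂ)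
    have h1 : val v (x' n) = OnePoint.infty := by
      rw [hQ, hPT.val_ev v Q (hx.trans n), hv, hcon]
    have h2 := hx'.val_eq hPT v 0 n
    rw [zero_add, ← h0, h1, hA, (po_iter_eq_infty_iff (by omega) n _).2 rfl] at h2
    have h3 := hx.val_eq hPT v 0 n
    rw [zero_add, h2, hA] at h3
    have h4 := (po_iter_eq_infty_iff (by omega) n _).1 h3.symm
    rw [hv] at h4
    exact OnePoint.coe_ne_infty c h4
  set q := Q.num with hq
  have hQd : rdeg Q = q.natDegree := by
    conv_lhs => rw [hpoly]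
    exact ch_rdeg_algebraMap _
  have hqne : 1 ≤ q.natDegree := by
    rw [Nat.one_le_iff_ne_zero]
    intro h1
    have h2 := Polynomial.eq_C_of_natDegree_eq_zero h1
    apply hx'.trans n
    have h3 : x' n = algebraMap ℂ Ω (q.coeff 0) := by
      rw [hQ, hpoly, po_ev_eq_aeval, h2, Polynomial.aeval_C]
      simp
    rw [h3]
    exact isAlgebraic_algebraMap _
  have hle : Cx x' n ≤ Cx x n := by rw [adjoin_simple_le_iff]; exact hmem
  have hr := relfinrank_ev (hx.trans n) (by rw [hQd]; exact hqne : 1 ≤ rdeg Q)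
  rw [← hQ] at hr
  have hle2 : Cx x 0 ≤ Cx x' n := by
    have := hx'.le 0 n
    rw [zero_add] at this
    have h2 : Cx x 0 = Cx x' 0 := by rw [Cx, Cx, h0]
    rwa [h2]
  have h1 : (Cx x 0).relfinrank (Cx x n) = rdeg A ^ n := by
    have := hx.relfinrank_eq (by omega) 0 n
    rwa [zero_add] at this
  have h2 : (Cx x 0).relfinrank (Cx x' n) = rdeg A ^ n := by
    have := hx'.relfinrank_eq (by omega) 0 n
    rw [zero_add] at this
    have h2 : Cx x 0 = Cx x' 0 := by rw [Cx, Cx, h0]
    rwa [h2]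
  have h3 := relfinrank_mul_relfinrank hle2 hle
  rw [h1, h2, hr] at h3
  have h4 : rdeg Q = 1 := by
    have h5 : 0 < rdeg A ^ n := pow_pos (by omega) n
    apply Nat.eq_of_mul_eq_mul_left h5
    rw [h3, mul_one]
  rw [hQd] at h4
  have h5 : q = Polynomial.C (q.coeff 1) * Polynomial.X + Polynomial.C (q.coeff 0) :=
    Polynomial.eq_X_add_C_of_natDegree_le_one h4.le
  refine ⟨q.coeff 1, q.coeff 0, ?_, ?_⟩
  · have h6 : q ≠ 0 := by
      intro h7
      rw [h7] at h4
      simp at h4
    have h7 := Polynomial.leadingCoeff_ne_zero.2 h6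
    rwa [Polynomial.leadingCoeff, h4] at h7
  · rw [← h5, ← po_ev_eq_aeval, ← hpoly, hQ]

theorem rigidU_poly (hPT : PTFacts Ω) (P : Polynomial ℂ) (hd : 2 ≤ P.natDegree)
    (hc : P.coeff (P.natDegree - 1) = 0)
    (hA : A = algebraMap (Polynomial ℂ) (RatFunc ℂ) P) (hS : ¬ SpecialIn Ω A) : RigidU Ω A := by
  intro x x' hx hx' h0 hcl
  by_contra hne
  choose a b ha hab using fun n : ℕ => po_affine hPT hd hA hS hx hx' h0 hcl n
  have hinj : ∀ (n : ℤ) (p q : Polynomial ℂ), Polynomial.aeval (x n) p = Polynomial.aeval (x n) q →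
      p = q := fun n p q h => (transcendental_iff_injective.1 (hx.trans n)) h
  -- the semiconjugacy
  have hsemi : ∀ n : ℕ, P.comp (Polynomial.C (a (n + 1)) * Polynomial.X + Polynomial.C (b (n + 1))) =
      Polynomial.C (a n) * P + Polynomial.C (b n) := by
    intro n
    apply hinj ((n : ℤ) + 1)
    have h1 : Polynomial.aeval (x' ((n : ℤ) + 1)) P = x' n := by
      rw [← po_ev_eq_aeval, ← hA]
      exact hx'.step n
    have h2 : Polynomial.aeval (x ((n : ℤ) + 1)) P = x n := by
      rw [← po_ev_eq_aeval, ← hA]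
      exact hx.step n
    have h3 : x' ((n : ℤ) + 1) = Polynomial.aeval (x ((n : ℤ) + 1))
        (Polynomial.C (a (n + 1)) * Polynomial.X + Polynomial.C (b (n + 1))) := by
      have := hab (n + 1)
      push_cast at this
      exact this
    rw [Polynomial.aeval_comp, ← h3, h1, hab n]
    simp only [map_add, map_mul, Polynomial.aeval_C, Polynomial.aeval_X, h2]
  have hb : ∀ n : ℕ, b (n + 1) = 0 := fun n => po_affine_conj hd hc (ha (n + 1)) (hsemi n)
  have h00 : Polynomial.C (a 0) * Polynomial.X + Polynomial.C (b 0) = Polynomial.X := by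
    apply hinj 0
    have h1 := hab 0
    rw [Nat.cast_zero, ← h0] at h1
    rw [← h1, Polynomial.aeval_X]
  have ha0 : a 0 = 1 := by
    have h1 := congrArg (fun p => Polynomial.coeff p 1) h00
    simpa using h1
  have hb0 : b 0 = 0 := by
    have h1 := congrArg (fun p => Polynomial.coeff p 0) h00
    simpa using h1
  have hb' : ∀ n : ℕ, b n = 0 := by
    intro n
    rcases n with _ | n
    · exact hb0
    · exact hb n
  have ha1 : a 1 ≠ 1 := by
    intro h1
    apply hne
    have h2 := hab 1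
    rw [h1, hb' 1] at h2
    have h3 : ((1 : ℕ) : ℤ) = 1 := by norm_num
    rw [h3] at h2
    rw [h2]
    simp
  refine hS (Or.inr (Or.inl ?_))
  rw [hA]
  refine po_isPow hd a ha0 ha1 ha fun n => ?_
  have h1 := hsemi n
  rw [hb' (n + 1), hb' n, Polynomial.C_0, add_zero, add_zero] at h1
  exact h1

end Pool.Agent.Helper63.Pak
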