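import Pool.Agent.Helper63.Pak.Basic

/-! Piece CH of MP_005844_an: recognition of Chebyshev polynomials. -/

namespace Pool.Agent.Helper63.Pak

open Polynomial

/-- local degree of a polynomial at `z` -/
noncomputable def chm (P : ℂ[X]) (z : ℂ) : ℕ := (P - C (P.eval z)).rootMultiplicity z

theorem chm_sub_ne_zero {P : ℂ[X]} (hd : 1 ≤ P.natDegree) (c : ℂ) : P - C c ≠ 0 := by
  intro h
  have h1 : P.natDegree = 0 := by
    rw [sub_eq_zero.1 h, natDegree_C]
  omega

theorem chm_pos {P : ℂ[X]} (hd : 1 ≤ P.natDegree) (z : ℂ) : 1 ≤ chm P z := by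
  rw [chm, Nat.one_le_iff_ne_zero, ← Nat.pos_iff_ne_zero,
    Polynomial.rootMultiplicity_pos (chm_sub_ne_zero hd _)]
  simp [IsRoot]

theorem ch_rootMultiplicity_derivative {P : ℂ[X]} (z : ℂ) :
    (derivative P).rootMultiplicity z = chm P z - 1 := by
  have h1 : derivative P = derivative (P - C (P.eval z)) := by simp
  rw [h1, derivative_rootMultiplicity_of_root (by simp [IsRoot])]
  rfl

theorem ch_rootMultiplicity_pair {P : ℂ[X]} (hd : 1 ≤ P.natDegree) {a b : ℂ} (hab : a ≠ b) (z : ℂ) :
    ((P - C a) * (P - C b)).rootMultiplicity z =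
      if P.eval z = a ∨ P.eval z = b then chm P z else 0 := by
  rw [rootMultiplicity_mul (mul_ne_zero (chm_sub_ne_zero hd _) (chm_sub_ne_zero hd _))]
  have h0 : ∀ c : ℂ, P.eval z ≠ c → (P - C c).rootMultiplicity z = 0 := by
    intro c hc
    apply rootMultiplicity_eq_zero
    simp only [IsRoot, eval_sub, eval_C]
    exact sub_ne_zero.2 hc
  by_cases ha : P.eval z = a
  · rw [if_pos (Or.inl ha), h0 b (by rw [ha]; exact hab), add_zero, chm, ha]
  · by_cases hb : P.eval z = b
    · rw [if_pos (Or.inr hb), h0 a ha, zero_add, chm, hb]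
    · rw [h0 a ha, h0 b hb, if_neg (by tauto)]

/-- A polynomial solution of the Chebyshev differential equation is determined by its leading
coefficient. -/
theorem ch_ode_unique {Q : ℂ[X]} {d : ℕ} (hQ : Q.natDegree ≤ d) (h0 : Q.coeff d = 0)
    (h : (1 - X ^ 2) * derivative (derivative Q) = X * derivative Q - C ((d : ℂ) ^ 2) * Q) :
    Q = 0 := by
  have key : ∀ k : ℕ, ((k : ℂ) ^ 2 - (d : ℂ) ^ 2) * Q.coeff k =
      ((k : ℂ) + 2) * (k + 1) * Q.coeff (k + 2) := by
    intro k
    have h1 := congrArg (fun q => q.coeff k) h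
    simp only [sub_mul, one_mul, coeff_sub, coeff_C_mul] at h1
    rcases k with _ | k
    · simp [coeff_derivative, mul_coeff_zero] at h1 ⊢
      linear_combination -h1
    · rw [coeff_X_mul] at h1
      rcases k with _ | k
      · have h2 : ((X : ℂ[X]) ^ 2 * derivative (derivative Q)).coeff (0 + 1) = 0 := by
          rw [pow_two, mul_assoc, coeff_X_mul, mul_coeff_zero]
          simp
        rw [h2] at h1
        simp only [coeff_derivative] at h1
        push_cast at h1 ⊢
        linear_combination -h1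
      · have h2 : ((X : ℂ[X]) ^ 2 * derivative (derivative Q)).coeff (k + 1 + 1) =
            (derivative (derivative Q)).coeff k := by
          rw [pow_two, mul_assoc, coeff_X_mul, coeff_X_mul]
        rw [h2] at h1
        simp only [coeff_derivative] at h1
        push_cast at h1 ⊢
        linear_combination -h1
  have hall : ∀ m k, k + m = d + 2 → Q.coeff k = 0 := by
    intro m
    induction m using Nat.strong_induction_on with
    | _ m ih =>
      intro k hk
      rcases Nat.lt_or_ge d k with hk1 | hk1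
      · exact coeff_eq_zero_of_natDegree_lt (lt_of_le_of_lt hQ hk1)
      · rcases Nat.eq_or_lt_of_le hk1 with hk2 | hk2
        · rw [hk2, h0]
        · have h2 := ih (m - 2) (by omega) (k + 2) (by omega)
          have h3 := key k
          rw [h2, mul_zero] at h3
          rcases mul_eq_zero.1 h3 with h4 | h4
          · exfalso
            have h5 : ((k : ℂ) - d) * (k + d) = 0 := by linear_combination h4
            rcases mul_eq_zero.1 h5 with h6 | h6
            · have : (k : ℂ) = d := by linear_combination h6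
              have : k = d := by exact_mod_cast this
              omega
            · have : ((k + d : ℕ) : ℂ) = 0 := by push_cast; exact h6
              have : k + d = 0 := by exact_mod_cast this
              omega
          · exact h4
  ext k
  rw [coeff_zero]
  rcases Nat.lt_or_ge d k with hk1 | hk1
  · exact coeff_eq_zero_of_natDegree_lt (lt_of_le_of_lt hQ hk1)
  · exact hall (d + 2 - k) k (by omega)

theorem ch_of_ode {Q : ℂ[X]} {d : ℕ} (hQ : Q.natDegree ≤ d)
    (h : (1 - X ^ 2) * derivative (derivative Q) = X * derivative Q - C ((d : ℂ) ^ 2) * Q) :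
    ∃ l : ℂ, Q = C l * Chebyshev.T ℂ d := by
  have hT := Chebyshev.one_sub_X_sq_mul_derivative_derivative_T_eq_poly_in_T (R := ℂ) (d : ℤ)
  rw [Function.iterate_succ, Function.iterate_one, Function.comp_apply] at hT
  have hdeg : (Chebyshev.T ℂ d).natDegree = d := by
    rw [Chebyshev.natDegree_T]; simp
  have hlc : (Chebyshev.T ℂ d).coeff d ≠ 0 := by
    have h1 : (Chebyshev.T ℂ d) ≠ 0 := by
      intro h0
      have h2 := Chebyshev.T_eval_one (R := ℂ) (d : ℤ)
      rw [h0] at h2
      simp at h2
    have h2 := leadingCoeff_ne_zero.2 h1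
    rwa [leadingCoeff, hdeg] at h2
  refine ⟨Q.coeff d / (Chebyshev.T ℂ d).coeff d, ?_⟩
  rw [← sub_eq_zero]
  set l := Q.coeff d / (Chebyshev.T ℂ d).coeff d with hl
  refine ch_ode_unique (d := d) ?_ ?_ ?_
  · refine (natDegree_sub_le _ _).trans (max_le hQ ?_)
    refine (natDegree_C_mul_le _ _).trans hdeg.le
  · rw [coeff_sub, coeff_C_mul, hl, div_mul_cancel₀ _ hlc, sub_self]
  · simp only [derivative_sub, derivative_C_mul]
    have hT' : (1 - X ^ 2) * derivative (derivative (Chebyshev.T ℂ d)) =
        X * derivative (Chebyshev.T ℂ d) - C ((d : ℂ) ^ 2) * Chebyshev.T ℂ d := by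
      rw [hT]
      simp
    linear_combination h - C l * hT'


theorem ch_comp_algebraMap (p q : ℂ[X]) :
    comp (algebraMap ℂ[X] (RatFunc ℂ) p) (algebraMap ℂ[X] (RatFunc ℂ) q) =
      algebraMap ℂ[X] (RatFunc ℂ) (p.comp q) := by
  rw [comp, RatFunc.eval_algebraMap, Polynomial.comp, Polynomial.hom_eval₂]
  congr 1

theorem ch_rdeg_algebraMap (p : ℂ[X]) : rdeg (algebraMap ℂ[X] (RatFunc ℂ) p) = p.natDegree := by
  rw [rdeg, RatFunc.num_algebraMap, RatFunc.denom_algebraMap]
  simp

theorem ch_pair_identity (P : ℂ[X]) (hd : 2 ≤ P.natDegree) {a b : ℂ} (hab : a ≠ b)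
    (h : ∀ z : ℂ, (P.eval z = a ∨ P.eval z = b) → ¬ (z = a ∨ z = b) → chm P z = 2)
    (h' : ∀ z : ℂ, (z = a ∨ z = b) → (P.eval z = a ∨ P.eval z = b) ∧ chm P z = 1) :
    (X - C a) * (X - C b) * (derivative P) ^ 2 =
      C ((P.natDegree : ℂ) ^ 2) * ((P - C a) * (P - C b)) := by
  set d := P.natDegree with hdef
  have hP0 : P ≠ 0 := by
    intro h0
    rw [h0, natDegree_zero] at hdef
    omega
  have hlc : P.coeff d ≠ 0 := leadingCoeff_ne_zero.2 hP0
  have hP'c : (derivative P).coeff (d - 1) = P.coeff d * d := by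
    rw [coeff_derivative, Nat.sub_add_cancel (by omega)]
    congr 1
    rw [Nat.cast_sub (by omega)]
    simp
  have hP' : derivative P ≠ 0 := by
    intro h0
    rw [h0, coeff_zero] at hP'c
    have : (d : ℂ) ≠ 0 := by
      have : d ≠ 0 := by omega
      exact_mod_cast this
    exact (mul_ne_zero hlc this) hP'c.symm
  have hN0 : (P - C a) * (P - C b) ≠ 0 :=
    mul_ne_zero (chm_sub_ne_zero (by omega) _) (chm_sub_ne_zero (by omega) _)
  have hM0 : (X - C a) * (X - C b) * (derivative P) ^ 2 ≠ 0 :=
    mul_ne_zero (mul_ne_zero (X_sub_C_ne_zero a) (X_sub_C_ne_zero b)) (pow_ne_zero _ hP')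
  have hdvd : (P - C a) * (P - C b) ∣ (X - C a) * (X - C b) * (derivative P) ^ 2 := by
    refine (IsAlgClosed.splits _).dvd_of_roots_le_roots hN0 ?_
    rw [Multiset.le_iff_count]
    intro z
    have hpow : (derivative P ^ 2).rootMultiplicity z = 2 * (chm P z - 1) := by
      rw [pow_two, rootMultiplicity_mul (mul_ne_zero hP' hP'), ch_rootMultiplicity_derivative]
      ring
    rw [count_roots, count_roots, ch_rootMultiplicity_pair (by omega) hab,
      rootMultiplicity_mul hM0, rootMultiplicity_mul (mul_ne_zero (X_sub_C_ne_zero a)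
      (X_sub_C_ne_zero b)), hpow,
      rootMultiplicity_X_sub_C, rootMultiplicity_X_sub_C]
    split_ifs with h1 h2 h3 h4
    · exact absurd (h2 ▸ h3 : a = b) hab
    · rw [(h' z (Or.inl h2)).2]
    · rw [(h' z (Or.inr h4)).2]
    · rw [h z h1 (by tauto)]
    all_goals exact Nat.zero_le _
  obtain ⟨q, hq⟩ := hdvd
  have hdegP : ∀ c : ℂ, (P - C c).natDegree = d := fun c => natDegree_sub_C
  have hdegN : ((P - C a) * (P - C b)).natDegree = 2 * d := by
    rw [natDegree_mul (chm_sub_ne_zero (by omega) _) (chm_sub_ne_zero (by omega) _), hdegP, hdegP]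
    ring
  have hdegP' : (derivative P).natDegree = d - 1 := by
    refine natDegree_eq_of_le_of_coeff_ne_zero (natDegree_derivative_le P) ?_
    rw [hP'c]
    have : (d : ℂ) ≠ 0 := by
      have : d ≠ 0 := by omega
      exact_mod_cast this
    exact mul_ne_zero hlc this
  have hdegM : ((X - C a) * (X - C b) * (derivative P) ^ 2).natDegree = 2 * d := by
    rw [natDegree_mul (mul_ne_zero (X_sub_C_ne_zero a) (X_sub_C_ne_zero b)) (pow_ne_zero _ hP'),
      natDegree_mul (X_sub_C_ne_zero a) (X_sub_C_ne_zero b), natDegree_pow, hdegP',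
      natDegree_X_sub_C, natDegree_X_sub_C]
    omega
  have hq0 : q ≠ 0 := by
    rintro rfl
    rw [mul_zero] at hq
    exact hM0 hq
  have hdegq : q.natDegree = 0 := by
    have h1 := congrArg natDegree hq
    rw [hdegM, natDegree_mul hN0 hq0, hdegN] at h1
    omega
  obtain ⟨c, rfl⟩ : ∃ c, q = C c := ⟨q.coeff 0, eq_C_of_natDegree_eq_zero hdegq⟩
  have hlcP : ∀ c : ℂ, (P - C c).leadingCoeff = P.coeff d := by
    intro c
    rw [leadingCoeff, hdegP, coeff_sub, coeff_C, if_neg (by omega), sub_zero]
  have hc : c = (d : ℂ) ^ 2 := by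
    have h1 := congrArg leadingCoeff hq
    rw [leadingCoeff_mul, leadingCoeff_mul, leadingCoeff_X_sub_C, leadingCoeff_X_sub_C,
      leadingCoeff_pow, leadingCoeff, hdegP', hP'c, leadingCoeff_mul, leadingCoeff_mul, hlcP, hlcP,
      leadingCoeff_C] at h1
    have h2 : (P.coeff d) ^ 2 ≠ 0 := pow_ne_zero _ hlc
    apply mul_left_cancel₀ h2
    linear_combination -h1
  rw [hq, hc, mul_comm]

theorem isCheb_of_pair (P : Polynomial ℂ) (hd : 2 ≤ P.natDegree) {a b : ℂ} (hab : a ≠ b)
    (h : ∀ z : ℂ, (P.eval z = a ∨ P.eval z = b) → ¬ (z = a ∨ z = b) →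
      (P - Polynomial.C (P.eval z)).rootMultiplicity z = 2)
    (h' : ∀ z : ℂ, (z = a ∨ z = b) → (P.eval z = a ∨ P.eval z = b) ∧
      (P - Polynomial.C (P.eval z)).rootMultiplicity z = 1) :
    IsCheb (algebraMap (Polynomial ℂ) (RatFunc ℂ) P) := by
  have hid := ch_pair_identity P hd hab h h'
  set d := P.natDegree with hdef
  have hP' : derivative P ≠ 0 := by
    intro h0
    have := derivative_eq_zero.1 h0
    omega
  -- first derivative of the identity
  have hid2 : (2 * X - C a - C b) * derivative P + 2 * ((X - C a) * (X - C b)) *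
      derivative (derivative P) = C ((d : ℂ) ^ 2) * (2 * P - C a - C b) := by
    have h1 := congrArg derivative hid
    rw [derivative_C_mul, derivative_mul, derivative_mul, derivative_mul, derivative_pow] at h1
    simp only [derivative_sub, derivative_X, derivative_C, sub_zero] at h1
    apply mul_right_cancel₀ hP'
    push_cast at h1
    simp only [map_ofNat] at h1
    linear_combination h1
  set m : ℂ := (a - b) / 2 with hm
  set s : ℂ := (a + b) / 2 with hs
  have hm0 : m ≠ 0 := div_ne_zero (sub_ne_zero.2 hab) two_ne_zero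
  have ha : a = s + m := by rw [hs, hm]; ring
  have hb : b = s - m := by rw [hs, hm]; ring
  set L : ℂ[X] := C m * X + C s with hL
  set Q : ℂ[X] := C m⁻¹ * (P.comp L - C s) with hQ
  have hmm : (C m⁻¹ * C m : ℂ[X]) = 1 := by rw [← C_mul, inv_mul_cancel₀ hm0, C_1]
  have hL' : derivative L = C m := by simp [hL]
  have hQ' : derivative Q = (derivative P).comp L := by
    rw [hQ, derivative_C_mul, derivative_sub, derivative_comp, derivative_C, sub_zero, hL',
      ← mul_assoc, hmm, one_mul]
  have hQ'' : derivative (derivative Q) = C m * (derivative (derivative P)).comp L := by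
    rw [hQ', derivative_comp, hL']
  have hPL : P.comp L = C m * Q + C s := by
    rw [hQ, ← mul_assoc, mul_comm (C m), hmm, one_mul, sub_add_cancel]
  have hode : (1 - X ^ 2) * derivative (derivative Q) = X * derivative Q - C ((d : ℂ) ^ 2) * Q := by
    have h1 := congrArg (fun p => p.comp L) hid2
    simp only [add_comp, mul_comp, sub_comp, Polynomial.X_comp, C_comp, ofNat_comp] at h1
    rw [← hQ', hPL, hL, ha, hb] at h1
    rw [hQ'']
    have h2 : (2 * C m : ℂ[X]) ≠ 0 := mul_ne_zero two_ne_zero (C_ne_zero.2 hm0)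
    apply mul_left_cancel₀ h2
    simp only [C_add, C_sub] at h1
    linear_combination -h1
  have hQd : Q.natDegree ≤ d := by
    rw [hQ]
    refine (natDegree_C_mul_le _ _).trans ((natDegree_sub_le _ _).trans (max_le ?_ ?_))
    · rw [natDegree_comp]
      have : L.natDegree ≤ 1 := by
        rw [hL]
        exact natDegree_linear_le
      calc P.natDegree * L.natDegree ≤ P.natDegree * 1 := Nat.mul_le_mul_left _ this
        _ = d := mul_one _
    · rw [natDegree_C]; exact Nat.zero_le _
  obtain ⟨l, hl⟩ := ch_of_ode hQd hode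
  have hl1 : l = 1 ∨ l = -1 := by
    have h1 : Q.eval 1 = l := by
      rw [hl, eval_mul, eval_C, Chebyshev.T_eval_one, mul_one]
    have h2 : Q.eval 1 = m⁻¹ * (P.eval a - s) := by
      rw [hQ, eval_mul, eval_C, eval_sub, eval_comp, eval_C, hL]
      simp only [eval_add, eval_mul, eval_C, eval_X, mul_one]
      rw [ha, add_comm]
    rw [h1] at h2
    rcases (h' a (Or.inl rfl)).1 with h3 | h3
    · left
      rw [h2, h3, ha]
      field_simp
      ring
    · right
      rw [h2, h3, hb]
      field_simp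
      ring
  set M : ℂ[X] := C m⁻¹ * (X - C s) with hMdef
  have hMd : rdeg (algebraMap ℂ[X] (RatFunc ℂ) M) = 1 := by
    rw [ch_rdeg_algebraMap, hMdef, natDegree_C_mul (inv_ne_zero hm0), natDegree_X_sub_C]
  have hLM : L.comp M = X := by
    rw [hL, hMdef]
    simp only [add_comp, mul_comp, C_comp, Polynomial.X_comp]
    rw [← mul_assoc, mul_comm (C m), hmm, one_mul, sub_add_cancel]
  have hconj : comp (algebraMap ℂ[X] (RatFunc ℂ) M) (algebraMap ℂ[X] (RatFunc ℂ) P) =
      comp (algebraMap ℂ[X] (RatFunc ℂ) Q) (algebraMap ℂ[X] (RatFunc ℂ) M) := by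
    have h1 : M.comp P = C m⁻¹ * (P - C s) := by
      rw [hMdef, mul_comp, C_comp, sub_comp, Polynomial.X_comp, C_comp]
    have h2 : Q.comp M = C m⁻¹ * (P - C s) := by
      rw [hQ, mul_comp, C_comp, sub_comp, C_comp, Polynomial.comp_assoc, hLM, Polynomial.comp_X]
    rw [ch_comp_algebraMap, ch_comp_algebraMap, h1, h2]
  rcases hl1 with rfl | rfl
  · left
    refine ⟨_, hMd, ?_⟩
    rw [hconj, hl, ch_rdeg_algebraMap, cheb]
    simp [hdef]
  · right
    refine ⟨_, hMd, ?_⟩
    rw [hconj, hl, ch_rdeg_algebraMap, cheb]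
    simp [hdef]

end Pool.Agent.Helper63.Pak
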